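import Mathlib
import Pool.Agent.U310.TQ.Stm

/-!
Project TQ, package VAL: many distinct values `φ(k) + φ(n-k)/2 + 1`.
-/

set_option autoImplicit false

namespace Pool.Agent.U608.TQ.VAL

open Filter Topology
open Pool.Agent.U310.TQ

lemma val_prime (n p : ℕ) (hp : p.Prime) (h : p + 3 ≤ n) :
    2 * qv n p + 2 * (n - p) = 2 * n + Nat.totient (n - p) := by
  obtain ⟨k, hk⟩ := Nat.totient_even (n := n - p) (by omega)
  have h1 := hp.one_lt
  unfold qv
  rw [Nat.totient_prime hp, hk]
  omega

lemma inj_aux (n p p' l l' r : ℕ) (hp : p.Prime) (hp' : p'.Prime) (h : p + 3 ≤ n)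
    (h' : p' + 3 ≤ n) (hl : l.Prime) (hl' : l'.Prime) (hm : l * r = n - p) (hm' : l' * r = n - p')
    (hq : qv n p = qv n p') (hd : l ∣ r ↔ l' ∣ r) : p = p' := by
  have e1 := val_prime n p hp h
  have e2 := val_prime n p' hp' h'
  have hr : 1 ≤ r := by
    rcases Nat.eq_zero_or_pos r with h0 | h0
    · rw [h0] at hm; omega
    · exact h0
  have hφ : Nat.totient r ≤ r := Nat.totient_le r
  rw [← hm] at e1
  rw [← hm'] at e2
  have hll : l = l' := by
    have h1 := hl.one_lt
    have h2 := hl'.one_lt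
    by_cases hdv : l ∣ r
    · have hdv' := hd.1 hdv
      rw [Nat.totient_mul_of_prime_of_dvd hl hdv] at e1
      rw [Nat.totient_mul_of_prime_of_dvd hl' hdv'] at e2
      rw [hq] at e1
      obtain ⟨s, hs⟩ := Nat.exists_eq_add_of_le hφ
      have e3 : l * (2 * s + Nat.totient r) = l' * (2 * s + Nat.totient r) := by
        have key : ∀ t c : ℕ, r = t + s → 2 * (c * r) + 0 = c * (2 * s + t) + c * t := by
          intro t c ht; rw [ht]; ring
        have a1 := key (Nat.totient r) l hs
        have a2 := key (Nat.totient r) l' hs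
        omega
      have hpos : 0 < 2 * s + Nat.totient r := by
        have := Nat.totient_pos.2 hr
        omega
      exact Nat.eq_of_mul_eq_mul_right hpos e3
    · have hdv' : ¬ l' ∣ r := fun h => hdv (hd.2 h)
      rw [Nat.totient_mul_of_prime_of_not_dvd hl hdv] at e1
      rw [Nat.totient_mul_of_prime_of_not_dvd hl' hdv'] at e2
      rw [hq] at e1
      obtain ⟨s, hs⟩ := Nat.exists_eq_add_of_le hφ
      obtain ⟨u, hu⟩ := Nat.exists_eq_add_of_lt h1
      obtain ⟨u', hu'⟩ := Nat.exists_eq_add_of_lt h2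
      have hu1 : l - 1 = u + 1 := by omega
      have hu1' : l' - 1 = u' + 1 := by omega
      rw [hu1] at e1
      rw [hu1'] at e2
      have hl2 : l = u + 2 := by omega
      have hl2' : l' = u' + 2 := by omega
      have e3 : (u + 1) * (2 * s + Nat.totient r) = (u' + 1) * (2 * s + Nat.totient r) := by
        have key : ∀ t c w : ℕ, r = t + s → c = w + 2 →
            2 * (c * r) = (w + 1) * (2 * s + t) + (w + 1) * t + 2 * r := by
          intro t c w ht hc; rw [hc, ht]; ring
        have a1 := key (Nat.totient r) l u hs hl2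
        have a2 := key (Nat.totient r) l' u' hs hl2'
        omega
      have hpos : 0 < 2 * s + Nat.totient r := by
        have := Nat.totient_pos.2 hr
        omega
      have := Nat.eq_of_mul_eq_mul_right hpos e3
      omega
  have : n - p = n - p' := by rw [← hm, ← hm', hll]
  omega

open Classical in
lemma count (n : ℕ) (hn : 3 ≤ n) (T : ℝ) (hT : 0 < T) :
    (Nat.primeCounting n : ℝ) ≤ 3 +
      (({m : ℕ | 1 ≤ m ∧ m ≤ n ∧ ∀ l : ℕ, l.Prime → l ∣ m → (l : ℝ) ≤ T}).ncard : ℝ) +
      (((Finset.Ico 1 (n - 2)).image (qv n)).card : ℝ) * (2 * (n / T + 1)) := by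
  set SM : Set ℕ := {m : ℕ | 1 ≤ m ∧ m ≤ n ∧ ∀ l : ℕ, l.Prime → l ∣ m → (l : ℝ) ≤ T} with hSM
  have hfin : SM.Finite := (Set.finite_Icc 1 n).subset fun m hm => ⟨hm.1, hm.2.1⟩
  set Q : Finset ℕ := (Finset.Ico 1 (n - 2)).filter Nat.Prime with hQ
  set P : Finset ℕ := Q.filter (fun p => ∃ l : ℕ, l.Prime ∧ l ∣ n - p ∧ T < (l : ℝ)) with hP
  set R : Finset ℕ := Q.filter (fun p => ¬ ∃ l : ℕ, l.Prime ∧ l ∣ n - p ∧ T < (l : ℝ)) with hR
  have h1 : Nat.primeCounting n ≤ Q.card + 3 := by
    rw [Nat.primeCounting, Nat.primeCounting', Nat.count_eq_card_filter_range]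
    have : (Finset.range (n + 1)).filter Nat.Prime ⊆ Q ∪ {n - 2, n - 1, n} := by
      intro p hp
      rw [Finset.mem_filter, Finset.mem_range] at hp
      simp only [hQ, Finset.mem_union, Finset.mem_filter, Finset.mem_Ico, Finset.mem_insert,
        Finset.mem_singleton]
      have := hp.2.one_lt
      by_cases h : p < n - 2
      · exact Or.inl ⟨⟨by omega, h⟩, hp.2⟩
      · right; omega
    calc ((Finset.range (n + 1)).filter Nat.Prime).card ≤ (Q ∪ {n - 2, n - 1, n}).card :=
          Finset.card_le_card this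
      _ ≤ Q.card + ({n - 2, n - 1, n} : Finset ℕ).card := Finset.card_union_le _ _
      _ ≤ Q.card + 3 := Nat.add_le_add_left Finset.card_le_three _
  have h2 : P.card + R.card = Q.card := Finset.card_filter_add_card_filter_not _
  have h3 : R.card ≤ SM.ncard := by
    rw [Set.ncard_eq_toFinset_card SM hfin]
    refine Finset.card_le_card_of_injOn (fun p => n - p) ?_ ?_
    · intro p hp
      simp only [hR, hQ, Finset.coe_filter, Finset.mem_filter, Finset.mem_Ico,
        Set.mem_setOf_eq] at hp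
      simp only [Set.Finite.coe_toFinset, hSM, Set.mem_setOf_eq]
      refine ⟨by omega, by omega, fun l hl hd => ?_⟩
      by_contra hlt
      exact hp.2 ⟨l, hl, hd, not_le.1 hlt⟩
    · intro p hp p' hp' h
      simp only [hR, hQ, Finset.coe_filter, Finset.mem_filter, Finset.mem_Ico,
        Set.mem_setOf_eq] at hp hp'
      simp only at h
      omega
  have h4 : P.card ≤ ((Finset.Ico 1 (n - 2)).image (qv n)).card * (2 * (⌊n / T⌋₊ + 1)) := by
    have hex : ∀ p ∈ P, ∃ l : ℕ, l.Prime ∧ l ∣ n - p ∧ T < (l : ℝ) := by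
      intro p hp
      exact (Finset.mem_filter.1 hp).2
    choose! l hl hd hlT using hex
    have hmaps : ∀ p ∈ P, (qv n p, ((n - p) / l p, decide (l p ∣ (n - p) / l p))) ∈
        ((Finset.Ico 1 (n - 2)).image (qv n)) ×ˢ ((Finset.range (⌊n / T⌋₊ + 1)) ×ˢ
          (Finset.univ : Finset Bool)) := by
      intro p hp
      have hpQ : p ∈ Q := (Finset.mem_filter.1 hp).1
      rw [Finset.mem_product, Finset.mem_product]
      refine ⟨Finset.mem_image_of_mem _ (Finset.mem_filter.1 hpQ).1, ?_, Finset.mem_univ _⟩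
      simp only [Finset.mem_range]
      refine Nat.lt_succ_of_le (Nat.le_floor ?_)
      have hl0 : (0 : ℝ) < l p := by exact_mod_cast (hl p hp).pos
      calc (((n - p) / l p : ℕ) : ℝ) ≤ ((n - p : ℕ) : ℝ) / l p := Nat.cast_div_le
        _ ≤ (n : ℝ) / l p := by
            apply div_le_div_of_nonneg_right _ hl0.le
            exact_mod_cast Nat.sub_le n p
        _ ≤ n / T := div_le_div_of_nonneg_left (Nat.cast_nonneg n) hT (hlT p hp).le
    have hc := Finset.card_le_card_of_injOn (s := P)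
      (t := ((Finset.Ico 1 (n - 2)).image (qv n)) ×ˢ ((Finset.range (⌊n / T⌋₊ + 1)) ×ˢ
          (Finset.univ : Finset Bool)))
      (fun p => (qv n p, ((n - p) / l p, decide (l p ∣ (n - p) / l p)))) hmaps (by
        intro p hp p' hp' h
        rw [Finset.mem_coe] at hp hp'
        simp only [Prod.mk.injEq] at h
        have hpQ := Finset.mem_filter.1 (Finset.mem_filter.1 hp).1
        have hpQ' := Finset.mem_filter.1 (Finset.mem_filter.1 hp').1
        rw [Finset.mem_Ico] at hpQ hpQ'
        refine inj_aux n p p' (l p) (l p') ((n - p) / l p) hpQ.2 hpQ'.2 (by omega) (by omega)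
          (hl p hp) (hl p' hp') (Nat.mul_div_cancel' (hd p hp)) ?_ h.1 ?_
        · rw [h.2.1]
          exact Nat.mul_div_cancel' (hd p' hp')
        · have h5 := h.2.2
          rw [decide_eq_decide] at h5
          rw [h5, h.2.1])
    rw [Finset.card_product, Finset.card_product, Finset.card_range, Finset.card_univ,
      Fintype.card_bool] at hc
    rw [mul_comm 2]
    exact hc
  have h5 : (⌊(n : ℝ) / T⌋₊ : ℝ) ≤ n / T := Nat.floor_le (by positivity)
  have h6 : (P.card : ℝ) ≤ (((Finset.Ico 1 (n - 2)).image (qv n)).card : ℝ) *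
      (2 * (n / T + 1)) := by
    have h4' : (P.card : ℝ) ≤ (((Finset.Ico 1 (n - 2)).image (qv n)).card : ℝ) *
        (2 * ((⌊(n : ℝ) / T⌋₊ : ℝ) + 1)) := by exact_mod_cast h4
    refine h4'.trans (mul_le_mul_of_nonneg_left (by linarith) (Nat.cast_nonneg _))
  have h1' : (Nat.primeCounting n : ℝ) ≤ Q.card + 3 := by exact_mod_cast h1
  have h2' : (P.card : ℝ) + R.card = Q.card := by exact_mod_cast h2
  have h3' : (R.card : ℝ) ≤ SM.ncard := by exact_mod_cast h3
  linarith

theorem t_VAL : S_VAL := by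
  intro hS a
  have hlg : ∀ᶠ x : ℝ in atTop, ‖Real.log x‖ ≤ 1 / 100 * ‖x‖ :=
    Real.isLittleO_log_id_atTop.def (by norm_num)
  have hpw : ∀ᶠ x : ℝ in atTop, ‖Real.log x ^ (a + 2)‖ ≤ 1 * ‖x‖ :=
    (Real.isLittleO_pow_log_id_atTop (n := a + 2)).def (by norm_num)
  have h1 := (tendsto_natCast_atTop_atTop (R := ℝ)).eventually hlg
  have h2 := (tendsto_natCast_atTop_atTop (R := ℝ)).eventually hpw
  have h3 := (Real.tendsto_log_atTop.comp (tendsto_natCast_atTop_atTop (R := ℝ))).eventually
    (eventually_ge_atTop (100 : ℝ))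
  filter_upwards [h1, h2, h3, hS (a + 2), eventually_ge_atTop 100] with n g1 g2 g3 g4 g5
  simp only [Function.comp_apply] at g3
  have hn0 : (100 : ℝ) ≤ n := by exact_mod_cast g5
  set x := Real.log n with hx
  have hx0 : 0 < x := by linarith
  have hT : 0 < x ^ (a + 2) := by positivity
  rw [Real.norm_eq_abs, Real.norm_eq_abs, abs_of_pos hx0, abs_of_pos (by linarith : (0 : ℝ) < n)]
    at g1
  rw [Real.norm_eq_abs, Real.norm_eq_abs, abs_of_pos hT, abs_of_pos (by linarith : (0 : ℝ) < n),
    one_mul] at g2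
  have hc := count n (by omega) (x ^ (a + 2)) hT
  have hpi := Chebyshev.pi_ge n
  rw [← hx] at hpi
  have hlog1 : Real.log ((n : ℝ) + 1) ≤ 2 * x := by
    rw [hx]
    have : (2 : ℝ) * Real.log n = Real.log ((n : ℝ) ^ 2) := by rw [Real.log_pow]; norm_num
    rw [this]
    exact Real.log_le_log (by linarith) (by nlinarith)
  have hl2 := Real.log_two_gt_d9
  -- lower bound for the number of primes
  have hlow : n / (2 * x) + 3 + n / x ^ 2 ≤ (n * Real.log 2 - Real.log ((n : ℝ) + 1)) / x := by
    rw [le_div_iff₀ hx0]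
    have e1 : (n / (2 * x) + 3 + n / x ^ 2) * x = n / 2 + 3 * x + n / x := by
      field_simp
    rw [e1]
    have e2 : (n : ℝ) / x ≤ n / 100 := div_le_div_of_nonneg_left (by linarith) (by norm_num) g3
    nlinarith
  set I : ℝ := (((Finset.Ico 1 (n - 2)).image (qv n)).card : ℝ) with hI
  have hI0 : 0 ≤ I := Nat.cast_nonneg _
  have e3 : (n : ℝ) / (2 * x) ≤ I * (2 * (n / x ^ (a + 2) + 1)) := by linarith
  have e4 : (1 : ℝ) ≤ n / x ^ (a + 2) := by
    rw [le_div_iff₀ hT, one_mul]
    exact g2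
  have e5 : (n : ℝ) / (2 * x) ≤ I * (4 * (n / x ^ (a + 2))) :=
    e3.trans (mul_le_mul_of_nonneg_left (by linarith) hI0)
  have e6 : x ^ (a + 1) ≤ 8 * I := by
    rw [div_le_iff₀ (by positivity)] at e5
    have e7 : I * (4 * (n / x ^ (a + 2))) * (2 * x) = n * (8 * I / x ^ (a + 1)) := by
      rw [pow_succ x (a + 1)]
      field_simp
      ring
    rw [e7] at e5
    have e8 : (1 : ℝ) ≤ 8 * I / x ^ (a + 1) := by
      by_contra hlt
      rw [not_le] at hlt
      nlinarith
    rwa [le_div_iff₀ (by positivity), one_mul] at e8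
  have e9 : x ^ (a + 1) = x ^ a * x := pow_succ x a
  have e10 : 0 < x ^ a := by positivity
  nlinarith

end Pool.Agent.U608.TQ.VAL
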